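import Pool.Agent.H88.MC.Targets2

/-! Module SMB of e0_modules. -/

namespace Pool.Agent.H14.E0

open Pool.Agent.H88.MC Finset

theorem mem_nb14 {n : ℕ} (G : SimpleGraph (Fin n)) (u v : Fin n) : v ∈ nb G u ↔ G.Adj u v := by
  unfold nb
  simp

theorem sg_mul (a b : Bool) : sg a * sg b = if a = b then 1 else -1 := by
  cases a <;> cases b <;> simp [sg]

/-- at a maximum cut at least half of the neighbours are on the other side -/
theorem half14 (hLO : T_LO) {n : ℕ} (F : SimpleGraph (Fin n)) (y : Fin n → Bool)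
    (hy : ∀ z, cutv F z ≤ cutv F y) (v : Fin n) :
    dg F v ≤ 2 * #((nb F v).filter (fun u => y u ≠ y v)) := by
  classical
  have h1 := hLO n F y hy v
  have h2 : sg (y v) * ay F y v = (#((nb F v).filter (fun u => y u = y v)) : ℤ) -
      #((nb F v).filter (fun u => y u ≠ y v)) := by
    unfold ay
    rw [Finset.mul_sum]
    have h3 : ∀ u ∈ nb F v, sg (y v) * sg (y u) =
        (if y u = y v then (1 : ℤ) else 0) - (if y u ≠ y v then (1 : ℤ) else 0) := by
      intro u _
      rw [sg_mul]
      by_cases h : y u = y v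
      · simp [h]
      · simp [h, Ne.symm h]
    rw [Finset.sum_congr rfl h3, Finset.sum_sub_distrib, Finset.sum_boole, Finset.sum_boole]
  have h4 : dg F v = #((nb F v).filter (fun u => y u = y v)) +
      #((nb F v).filter (fun u => y u ≠ y v)) := by
    unfold dg
    rw [← Finset.card_filter_add_card_filter_not (s := nb F v) (fun u => y u = y v)]
  rw [h2] at h1
  rw [h4]
  omega

theorem pf_smb (hLO : T_LO) : T_SMB := by
  classical
  intro n F K hK hd
  obtain ⟨y, -, hy⟩ := Finset.exists_max_image (univ : Finset (Fin n → Bool)) (cutv F)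
    univ_nonempty
  have hhalf := half14 hLO F y (fun z => hy z (mem_univ z))
  obtain ⟨V₁, hV₁⟩ : ∃ V₁ : Finset (Fin n), V₁ = univ.filter (fun v => y v = true) := ⟨_, rfl⟩
  obtain ⟨V₂, hV₂⟩ : ∃ V₂ : Finset (Fin n), V₂ = univ.filter (fun v => y v = false) := ⟨_, rfl⟩
  have m1 : ∀ v, v ∈ V₁ ↔ y v = true := fun v => by rw [hV₁]; simp
  have m2 : ∀ v, v ∈ V₂ ↔ y v = false := fun v => by rw [hV₂]; simp
  have hcount : ∀ A B : Finset (Fin n), ∑ v ∈ A, #(nb F v ∩ B) =
      ∑ v ∈ A, ∑ u ∈ B, if F.Adj v u then 1 else 0 := by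
    intro A B
    refine Finset.sum_congr rfl fun v _ => ?_
    rw [Finset.sum_boole]
    simp only [Nat.cast_id]
    congr 1
    ext u
    simp only [mem_inter, mem_filter, mem_nb14]
    exact and_comm
  have hsym : ∑ v ∈ V₂, #(nb F v ∩ V₁) = ∑ v ∈ V₁, #(nb F v ∩ V₂) := by
    rw [hcount, hcount, Finset.sum_comm]
    refine Finset.sum_congr rfl fun v _ => Finset.sum_congr rfl fun u _ => ?_
    simp only [F.adj_comm]
  obtain ⟨e, he⟩ : ∃ e : ℕ, e = ∑ v ∈ V₁, #(nb F v ∩ V₂) := ⟨_, rfl⟩
  have hsum : ∑ v, dg F v ≤ 4 * e := by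
    have h1 : ∑ v, dg F v ≤ ∑ v, 2 * #((nb F v).filter (fun u => y u ≠ y v)) :=
      Finset.sum_le_sum fun v _ => hhalf v
    have h2 : ∑ v, 2 * #((nb F v).filter (fun u => y u ≠ y v)) = 4 * e := by
      rw [← Finset.mul_sum, ← Finset.sum_filter_add_sum_filter_not univ (fun v => y v = true)]
      have h3 : ∑ v ∈ univ.filter (fun v => y v = true), #((nb F v).filter (fun u => y u ≠ y v)) =
          e := by
        rw [he, hV₁]
        refine Finset.sum_congr rfl fun v hv => ?_
        congr 1
        ext u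
        rw [mem_filter] at hv
        simp only [mem_filter, mem_inter, m2, hv.2]
        cases y u <;> simp
      have h4 : ∑ v ∈ univ.filter (fun v => ¬ y v = true),
          #((nb F v).filter (fun u => y u ≠ y v)) = e := by
        rw [he, ← hsym, hV₂]
        refine Finset.sum_congr ?_ fun v hv => ?_
        · ext v
          simp
        · congr 1
          ext u
          have hv2 : y v = false := by simpa using hv
          simp only [mem_filter, mem_inter, m1, hv2]
          cases y u <;> simp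
      rw [h3, h4]
      ring
    omega
  have hK0 : 0 < K := by linarith
  have hsumR : ((∑ v, dg F v : ℕ) : ℝ) ≤ 4 * e := by exact_mod_cast hsum
  have he1 : (n : ℝ) ^ 2 ≤ K * (4 * e) := hd.trans (mul_le_mul_of_nonneg_left hsumR hK0.le)
  refine ⟨V₁, V₂, V₁.filter (fun v => (n : ℝ) / (8 * K) ≤ #(nb F v ∩ V₂)), ?_,
    Finset.filter_subset _ _, ?_, fun v hv => (mem_filter.1 hv).2⟩
  · rw [Finset.disjoint_left]
    intro v h1 h2
    rw [m1] at h1
    rw [m2, h1] at h2
    exact absurd h2 (by simp)
  · rcases Nat.eq_zero_or_pos n with hn | hn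
    · subst hn
      simp
    · have hn0 : (0 : ℝ) < n := by exact_mod_cast hn
      obtain ⟨J, hJ⟩ : ∃ J : Finset (Fin n), J = V₁.filter (fun v =>
        (n : ℝ) / (8 * K) ≤ #(nb F v ∩ V₂)) := ⟨_, rfl⟩
      rw [← hJ]
      have h1 : (e : ℝ) ≤ #J * n + n * (n / (8 * K)) := by
        rw [he]
        push_cast
        rw [← Finset.sum_filter_add_sum_filter_not V₁ (fun v =>
          (n : ℝ) / (8 * K) ≤ #(nb F v ∩ V₂)), ← hJ]
        refine add_le_add ?_ ?_
        · calc ∑ v ∈ J, (#(nb F v ∩ V₂) : ℝ) ≤ ∑ v ∈ J, (n : ℝ) := by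
                refine Finset.sum_le_sum fun v _ => ?_
                have := Finset.card_le_univ (nb F v ∩ V₂)
                rw [Fintype.card_fin] at this
                exact_mod_cast this
            _ = #J * n := by rw [Finset.sum_const, nsmul_eq_mul]
        · calc ∑ v ∈ V₁.filter (fun v => ¬ (n : ℝ) / (8 * K) ≤ #(nb F v ∩ V₂)),
                (#(nb F v ∩ V₂) : ℝ) ≤ ∑ v ∈ V₁.filter (fun v =>
                  ¬ (n : ℝ) / (8 * K) ≤ #(nb F v ∩ V₂)), (n : ℝ) / (8 * K) := by
                refine Finset.sum_le_sum fun v hv => ?_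
                exact (not_le.1 (mem_filter.1 hv).2).le
            _ = #(V₁.filter (fun v => ¬ (n : ℝ) / (8 * K) ≤ #(nb F v ∩ V₂))) *
                ((n : ℝ) / (8 * K)) := by rw [Finset.sum_const, nsmul_eq_mul]
            _ ≤ n * (n / (8 * K)) := by
                refine mul_le_mul_of_nonneg_right ?_ (by positivity)
                have := Finset.card_le_univ (V₁.filter (fun v =>
                  ¬ (n : ℝ) / (8 * K) ≤ #(nb F v ∩ V₂)))
                rw [Fintype.card_fin] at this
                exact_mod_cast this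
      have h2 : (n : ℝ) ^ 2 / (8 * K) ≤ #J * n := by
        have h3 : (n : ℝ) ^ 2 / (4 * K) ≤ e := by
          rw [div_le_iff₀ (by positivity)]
          linarith
        have h4 : (n : ℝ) ^ 2 / (4 * K) = 2 * ((n : ℝ) ^ 2 / (8 * K)) := by
          field_simp
          ring
        have h5 : (n : ℝ) * (n / (8 * K)) = (n : ℝ) ^ 2 / (8 * K) := by ring
        linarith
      have h6 : (n : ℝ) / (8 * K) * n ≤ #J * n := by
        calc (n : ℝ) / (8 * K) * n = (n : ℝ) ^ 2 / (8 * K) := by ring
          _ ≤ _ := h2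
      exact le_of_mul_le_mul_right h6 hn0

end Pool.Agent.H14.E0
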