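import Pool.Agent.H88.MC.Targets2
import Pool.Agent.H14.E0.SMB

/-! Module SM0 of e0_modules: resampling. -/

namespace Pool.Agent.H14.E0

open Pool.Agent.H88.MC Finset

variable {n : ℕ}

/-- the adjacencies between `v` and `S` are replaced by `A` -/
def upd (G : SimpleGraph (Fin n)) (v : Fin n) (S A : Finset (Fin n)) (hv : v ∉ S) :
    SimpleGraph (Fin n) where
  Adj a b := (a = v ∧ b ∈ S ∧ b ∈ A) ∨ (b = v ∧ a ∈ S ∧ a ∈ A) ∨
    (¬ (a = v ∧ b ∈ S) ∧ ¬ (b = v ∧ a ∈ S) ∧ G.Adj a b)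
  symm := ⟨fun a b h => by
    rcases h with h | h | ⟨h1, h2, h3⟩
    · exact Or.inr (Or.inl h)
    · exact Or.inl h
    · exact Or.inr (Or.inr ⟨h2, h1, h3.symm⟩)⟩
  loopless := ⟨fun a h => by
    rcases h with ⟨rfl, h, -⟩ | ⟨rfl, h, -⟩ | ⟨-, -, h⟩
    · exact hv h
    · exact hv h
    · exact G.loopless.irrefl a h⟩

theorem upd_adj (G : SimpleGraph (Fin n)) (v : Fin n) (S A : Finset (Fin n)) (hv : v ∉ S)
    (a b : Fin n) : (upd G v S A hv).Adj a b ↔ (a = v ∧ b ∈ S ∧ b ∈ A) ∨ (b = v ∧ a ∈ S ∧ a ∈ A) ∨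
    (¬ (a = v ∧ b ∈ S) ∧ ¬ (b = v ∧ a ∈ S) ∧ G.Adj a b) := Iff.rfl

theorem upd_agree (F H G : SimpleGraph (Fin n)) (v : Fin n) (S A : Finset (Fin n)) (hv : v ∉ S)
    (hS : ∀ u ∈ S, F.Adj v u) : Agree F H (upd G v S A hv) ↔ Agree F H G := by
  unfold Agree
  refine forall_congr' fun a => forall_congr' fun b => imp_congr_right fun hF => ?_
  have h1 : ¬ (a = v ∧ b ∈ S) := by
    rintro ⟨rfl, hb⟩
    exact hF (hS b hb)
  have h2 : ¬ (b = v ∧ a ∈ S) := by
    rintro ⟨rfl, ha⟩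
    exact hF (hS a ha).symm
  rw [upd_adj]
  have h3 : ((a = v ∧ b ∈ S ∧ b ∈ A) ∨ (b = v ∧ a ∈ S ∧ a ∈ A) ∨
      (¬ (a = v ∧ b ∈ S) ∧ ¬ (b = v ∧ a ∈ S) ∧ G.Adj a b)) ↔ G.Adj a b := by tauto
  rw [h3]

theorem upd_ay (G : SimpleGraph (Fin n)) (v : Fin n) (S A : Finset (Fin n)) (hv : v ∉ S)
    (y : Fin n → Bool) (w : Fin n) (hw : w ≠ v) (hwS : w ∉ S) :
    ay (upd G v S A hv) y w = ay G y w := by
  unfold ay
  refine Finset.sum_congr ?_ fun _ _ => rfl
  ext u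
  rw [mem_nb14, mem_nb14, upd_adj]
  tauto

theorem upd_nb (G : SimpleGraph (Fin n)) (v : Fin n) (S A : Finset (Fin n)) (hv : v ∉ S)
    (hA : A ⊆ S) : nb (upd G v S A hv) v ∩ S = A := by
  ext u
  rw [mem_inter, mem_nb14, upd_adj]
  constructor
  · rintro ⟨h, hu⟩
    rcases h with h | h | h
    · exact h.2.2
    · exact absurd h.2.1 hv
    · exact absurd ⟨rfl, hu⟩ h.1
  · intro h
    exact ⟨Or.inl ⟨rfl, hA h, h⟩, hA h⟩

theorem upd_upd (G : SimpleGraph (Fin n)) (v : Fin n) (S A : Finset (Fin n)) (hv : v ∉ S) :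
    upd (upd G v S A hv) v S (nb G v ∩ S) hv = G := by
  ext a b
  rw [upd_adj, upd_adj]
  simp only [mem_inter, mem_nb14]
  constructor
  · rintro (⟨rfl, -, h, -⟩ | ⟨rfl, -, h, -⟩ | ⟨h1, h2, h3⟩)
    · exact h
    · exact h.symm
    · tauto
  · intro h
    by_cases h1 : a = v ∧ b ∈ S
    · obtain ⟨rfl, hb⟩ := h1
      exact Or.inl ⟨rfl, hb, h, hb⟩
    · by_cases h2 : b = v ∧ a ∈ S
      · obtain ⟨rfl, ha⟩ := h2
        exact Or.inr (Or.inl ⟨rfl, ha, h.symm, ha⟩)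
      · exact Or.inr (Or.inr ⟨h1, h2, Or.inr (Or.inr ⟨h1, h2, h⟩)⟩)

theorem upd_ay_self (G : SimpleGraph (Fin n)) (v : Fin n) (S A : Finset (Fin n)) (hv : v ∉ S)
    (hA : A ⊆ S) (y : Fin n → Bool) :
    ay (upd G v S A hv) y v = ∑ u ∈ nb G v \ S, sg (y u) + ∑ u ∈ A, sg (y u) := by
  unfold ay
  have h : nb (upd G v S A hv) v = (nb G v \ S) ∪ A := by
    ext u
    rw [mem_nb14, upd_adj, mem_union, mem_sdiff, mem_nb14]
    constructor
    · rintro (h | h | h)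
      · exact Or.inr h.2.2
      · exact absurd h.2.1 hv
      · exact Or.inl ⟨h.2.2, fun hu => h.1 ⟨rfl, hu⟩⟩
    · rintro (⟨h1, h2⟩ | h)
      · exact Or.inr (Or.inr ⟨fun h => h2 h.2, fun h => hv h.2, h1⟩)
      · exact Or.inl ⟨rfl, hA h, h⟩
  rw [h, Finset.sum_union]
  rw [Finset.disjoint_left]
  intro u hu hA'
  exact (mem_sdiff.1 hu).2 (hA hA')

/-- one step of resampling -/
theorem step (hAC : T_AC) (Ω : Finset (SimpleGraph (Fin n))) (v : Fin n) (S : Finset (Fin n))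
    (hv : v ∉ S) (y : Fin n → Bool) (r ρ : ℝ) (hr : 0 ≤ r)
    (hρ : (2 * r + 1) / Real.sqrt (#S + 1) ≤ ρ)
    (hΩ : ∀ G ∈ Ω, ∀ A, A ⊆ S → upd G v S A hv ∈ Ω) :
    (#(Ω.filter fun G => |(ay G y v : ℝ)| ≤ r) : ℝ) ≤ ρ * #Ω := by
  classical
  -- the involution
  have h1 : #((Ω ×ˢ S.powerset).filter fun p => |(ay p.1 y v : ℝ)| ≤ r) =
      #((Ω ×ˢ S.powerset).filter fun p => |(ay (upd p.1 v S p.2 hv) y v : ℝ)| ≤ r) := by
    refine Finset.card_nbij' (fun p => (upd p.1 v S p.2 hv, nb p.1 v ∩ S))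
      (fun p => (upd p.1 v S p.2 hv, nb p.1 v ∩ S)) ?_ ?_ ?_ ?_
    · rintro ⟨G, A⟩ hp
      simp only [coe_filter, mem_product, mem_powerset, Set.mem_ofPred_eq] at hp ⊢
      refine ⟨⟨hΩ G hp.1.1 A hp.1.2, inter_subset_right⟩, ?_⟩
      rw [upd_upd]
      exact hp.2
    · rintro ⟨G, A⟩ hp
      simp only [coe_filter, mem_product, mem_powerset, Set.mem_ofPred_eq] at hp ⊢
      exact ⟨⟨hΩ G hp.1.1 A hp.1.2, inter_subset_right⟩, hp.2⟩
    · rintro ⟨G, A⟩ hp
      simp only [coe_filter, mem_product, mem_powerset, Set.mem_ofPred_eq] at hp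
      simp only [Prod.mk.injEq]
      exact ⟨upd_upd G v S A hv, upd_nb G v S A hv hp.1.2⟩
    · rintro ⟨G, A⟩ hp
      simp only [coe_filter, mem_product, mem_powerset, Set.mem_ofPred_eq] at hp
      simp only [Prod.mk.injEq]
      exact ⟨upd_upd G v S A hv, upd_nb G v S A hv hp.1.2⟩
  have h2 : #((Ω ×ˢ S.powerset).filter fun p => |(ay p.1 y v : ℝ)| ≤ r) =
      #(Ω.filter fun G => |(ay G y v : ℝ)| ≤ r) * 2 ^ #S := by
    rw [← Finset.card_powerset, ← Finset.card_product]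
    congr 1
    ext ⟨G, A⟩
    simp only [mem_filter, mem_product]
    tauto
  have h3 : (#((Ω ×ˢ S.powerset).filter fun p =>
      |(ay (upd p.1 v S p.2 hv) y v : ℝ)| ≤ r) : ℝ) ≤ #Ω * (ρ * 2 ^ #S) := by
    have h4 : #((Ω ×ˢ S.powerset).filter fun p => |(ay (upd p.1 v S p.2 hv) y v : ℝ)| ≤ r) =
        ∑ G ∈ Ω, #(S.powerset.filter fun A => |(ay (upd G v S A hv) y v : ℝ)| ≤ r) := by
      rw [Finset.card_filter, Finset.sum_product]
      refine Finset.sum_congr rfl fun G _ => ?_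
      rw [Finset.card_filter]
    rw [h4]
    push_cast
    calc ∑ G ∈ Ω, (#(S.powerset.filter fun A => |(ay (upd G v S A hv) y v : ℝ)| ≤ r) : ℝ) ≤
          ∑ G ∈ Ω, ρ * 2 ^ #S := by
          refine Finset.sum_le_sum fun G _ => ?_
          have h5 := hAC n S y (∑ u ∈ nb G v \ S, sg (y u)) r hr
          have h6 : S.powerset.filter (fun A => |(ay (upd G v S A hv) y v : ℝ)| ≤ r) =
              S.powerset.filter (fun A => |((∑ u ∈ nb G v \ S, sg (y u) : ℤ) : ℝ) +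
                ∑ u ∈ A, sgr y u| ≤ r) := by
            refine Finset.filter_congr fun A hA => ?_
            rw [upd_ay_self G v S A hv (mem_powerset.1 hA) y]
            have h7 : ((∑ u ∈ nb G v \ S, sg (y u) + ∑ u ∈ A, sg (y u) : ℤ) : ℝ) =
                ((∑ u ∈ nb G v \ S, sg (y u) : ℤ) : ℝ) + ∑ u ∈ A, sgr y u := by
              push_cast
              congr 1
              refine Finset.sum_congr rfl fun u _ => ?_
              unfold sg sgr
              split_ifs <;> simp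
            rw [h7]
          rw [h6]
          refine le_trans (le_of_eq ?_) (h5.trans ?_)
          · congr 1
          · calc (2 * r + 1) * 2 ^ #S / Real.sqrt (#S + 1) =
                (2 * r + 1) / Real.sqrt (#S + 1) * 2 ^ #S := by ring
              _ ≤ ρ * 2 ^ #S := mul_le_mul_of_nonneg_right hρ (by positivity)
      _ = #Ω * (ρ * 2 ^ #S) := by rw [Finset.sum_const, nsmul_eq_mul]
  rw [← h1, h2] at h3
  push_cast at h3
  have h8 : (#(Ω.filter fun G => |(ay G y v : ℝ)| ≤ r) : ℝ) * 2 ^ #S ≤ ρ * #Ω * 2 ^ #S := by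
    calc _ ≤ (#Ω : ℝ) * (ρ * 2 ^ #S) := h3
      _ = _ := by ring
  exact le_of_mul_le_mul_right h8 (by positivity)

theorem pf_sm0 (hAC : T_AC) : T_SM0 := by
  classical
  intro n F H V₁ V₂ J y r ρ hdisj hJ hr hρ0 hρ
  induction J using Finset.induction_on with
  | empty => simp
  | insert v J' hvJ ih =>
    have hJ' : J' ⊆ V₁ := fun w hw => hJ (mem_insert_of_mem hw)
    have ih := ih hJ' fun w hw => hρ w (mem_insert_of_mem hw)
    have hv1 : v ∈ V₁ := hJ (mem_insert_self v J')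
    obtain ⟨S, hS⟩ : ∃ S : Finset (Fin n), S = nb F v ∩ V₂ := ⟨_, rfl⟩
    have hvS : v ∉ S := by
      rw [hS, mem_inter]
      rintro ⟨-, h⟩
      exact Finset.disjoint_left.1 hdisj hv1 h
    have hSF : ∀ u ∈ S, F.Adj v u := by
      intro u hu
      rw [hS, mem_inter, mem_nb14] at hu
      exact hu.1
    have hst := step hAC (univ.filter fun G : SimpleGraph (Fin n) =>
        Agree F H G ∧ ∀ w ∈ J', |(ay G y w : ℝ)| ≤ r) v S hvS y r ρ hr
      (by rw [hS]; exact hρ v (mem_insert_self v J')) (by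
        intro G hG A hA
        rw [mem_filter] at hG ⊢
        refine ⟨mem_univ _, (upd_agree F H G v S A hvS hSF).2 hG.2.1, fun w hw => ?_⟩
        have h1 : w ≠ v := fun h => hvJ (h ▸ hw)
        have h2 : w ∉ S := by
          rw [hS, mem_inter]
          rintro ⟨-, h⟩
          exact Finset.disjoint_left.1 hdisj (hJ' hw) h
        rw [upd_ay G v S A hvS y w h1 h2]
        exact hG.2.2 w hw)
    have e1 : (univ.filter fun G : SimpleGraph (Fin n) => Agree F H G ∧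
        ∀ w ∈ insert v J', |(ay G y w : ℝ)| ≤ r) =
        (univ.filter fun G : SimpleGraph (Fin n) => Agree F H G ∧
        ∀ w ∈ J', |(ay G y w : ℝ)| ≤ r).filter fun G => |(ay G y v : ℝ)| ≤ r := by
      ext G
      simp only [mem_filter, mem_univ, true_and, mem_insert, forall_eq_or_imp]
      tauto
    rw [e1, card_insert_of_notMem hvJ]
    refine hst.trans ?_
    calc ρ * _ ≤ ρ * (ρ ^ #J' * #{G : SimpleGraph (Fin n) | Agree F H G}) :=
          mul_le_mul_of_nonneg_left ih hρ0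
      _ = _ := by ring

end Pool.Agent.H14.E0
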